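import Mathlib
import Pool.Agent.Helper69.BQ.St.M
import Pool.Agent.Helper69.BQ.St.M2

/-!
# Project BQ, piece S4: the solutions of the conditions
-/

namespace Pool.Agent.Helper64.BQ

open Module NumberField Pool.Agent.Helper25.Biq Pool.Agent.Helper69.BQ Cert

/-- The pairing with a mask with one bit. -/
lemma dot_two_pow (N : ℕ) (x : ℕ → ZMod 2) (b : ℕ) (hb : b < N) : dot N x (2 ^ b) = x b := by
  unfold dot
  rw [Finset.sum_eq_single b]
  · unfold bitz
    rw [Nat.testBit_two_pow_self]
    simp
  · intro i _ hi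
    unfold bitz
    rw [Nat.testBit_two_pow_of_ne (Ne.symm hi)]
    simp
  · intro h
    exact absurd (Finset.mem_range.mpr hb) h

/-- The pairing with the zero mask. -/
lemma dot_zero (N : ℕ) (x : ℕ → ZMod 2) : dot N x 0 = 0 := by
  unfold dot bitz
  simp

/-- The pairing with a mask or zero. -/
lemma dot_ite (N : ℕ) (x : ℕ → ZMod 2) (b : Bool) (F : ℕ) :
    dot N x (if b = true then F else 0) = (if b = true then 1 else 0) * dot N x F := by
  cases b
  · simp [dot_zero]
  · simp

/-- Two numbers whose coordinates agree except for the sign. -/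
lemma sign_cases {ps : List ℕ} (hps : ∀ p ∈ ps, p.Prime ∧ p ≠ 2) {s t : ℚ}
    (hs : SuppOn ps s) (ht : SuppOn ps t)
    (h : ∀ i, i + 1 < ps.length + 2 → co ps s (i + 1) = co ps t (i + 1)) :
    ∃ q : ℚ, s = t * q ^ 2 ∨ s = -(t * q ^ 2) := by
  by_cases h0 : (s < 0 ↔ t < 0)
  · obtain ⟨q, _, hq⟩ := eq_of_co (fun p hp => (hps p hp).1) hs ht (by
      intro i hi
      cases i with
      | zero =>
        show (if s < 0 then (1 : ZMod 2) else 0) = if t < 0 then 1 else 0
        by_cases h1 : s < 0
        · rw [if_pos h1, if_pos (h0.mp h1)]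
        · rw [if_neg h1, if_neg (fun h2 => h1 (h0.mpr h2))]
      | succ i => exact h i hi)
    exact ⟨q, Or.inl hq⟩
  · have ht' : SuppOn ps (-t) := by
      refine ⟨neg_ne_zero.mpr ht.1, fun p hp hp2 hpp => ?_⟩
      rw [vv_neg]
      exact ht.2 p hp hp2 hpp
    obtain ⟨q, _, hq⟩ := eq_of_co (fun p hp => (hps p hp).1) hs ht' (by
      intro i hi
      cases i with
      | zero =>
        show (if s < 0 then (1 : ZMod 2) else 0) = if -t < 0 then 1 else 0
        have hs0 := hs.1
        have ht0 := ht.1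
        by_cases h1 : s < 0
        · have h2 : ¬ t < 0 := fun h2 => h0 ⟨fun _ => h2, fun _ => h1⟩
          have h3 : -t < 0 := by
            have : 0 < t := lt_of_le_of_ne (not_lt.mp h2) (Ne.symm ht0)
            linarith
          rw [if_pos h1, if_pos h3]
        · have h2 : t < 0 := by
            by_contra h2
            exact h0 ⟨fun h => absurd h h1, fun h => absurd h h2⟩
          have h3 : ¬ -t < 0 := by
            intro h
            linarith
          rw [if_neg h1, if_neg h3]
      | succ i =>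
        rw [h i hi]
        cases i with
        | zero => exact (vv_neg t).symm
        | succ i => exact (vv_neg t).symm)
    refine ⟨q, Or.inr ?_⟩
    rw [hq]
    ring

/-- The product of two numbers supported on the list. -/
lemma supp_mul {ps : List ℕ} {a b : ℚ} (ha : SuppOn ps a) (hb : SuppOn ps b) :
    SuppOn ps (a * b) := by
  refine ⟨mul_ne_zero ha.1 hb.1, fun p hp hp2 hpp => ?_⟩
  rw [vv_mul hp ha.1 hb.1, ha.2 p hp hp2 hpp, hb.2 p hp hp2 hpp, add_zero]

/-- One is supported on the list. -/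
lemma supp_one (ps : List ℕ) : SuppOn ps 1 := by
  refine ⟨one_ne_zero, fun p hp _ _ => ?_⟩
  have := vv_sq hp (a := 1) one_ne_zero
  rwa [one_pow] at this

/-- The coordinates of one. -/
lemma co_one {ps : List ℕ} (hps : ∀ p ∈ ps, p.Prime ∧ p ≠ 2) (i : ℕ)
    (hi : i + 1 < ps.length + 2) : co ps 1 (i + 1) = 0 := by
  have h := co_mul (fun p hp => (hps p hp).1) (one_ne_zero : (1 : ℚ) ≠ 0)
    (one_ne_zero : (1 : ℚ) ≠ 0) (i + 1) hi
  rw [mul_one] at h
  exact left_eq_add.mp h

/-- S4. The solutions of the conditions. -/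
lemma okK_sound {ps : List ℕ} (hps : ∀ p ∈ ps, p.Prime ∧ p ≠ 2) (hnd : ps.Nodup) {kk : List ℕ}
    {dk rk : ℕ} {F : ℕ × ℕ} {Kk : List ℕ} (hK : okK (ps.length + 2) kk dk rk F Kk = true) {s : ℚ}
    (hs : SuppOn ps s) (h : ∀ a ∈ kk, dot (ps.length + 2) (co ps s) a = 0) :
    ∃ q : ℚ, s = q ^ 2 ∨ s = -q ^ 2 ∨ s = valM ps dk * q ^ 2 ∨ s = -(valM ps dk * q ^ 2) ∨
      s = valM ps rk * q ^ 2 ∨ s = -(valM ps rk * q ^ 2) ∨
      s = valM ps dk * valM ps rk * q ^ 2 ∨ s = -(valM ps dk * valM ps rk * q ^ 2) := by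
  have hco : ∀ i, i + 1 < ps.length + 2 → co ps s (i + 1) =
      bitz dk (i + 1) * dot (ps.length + 2) (co ps s) F.1 +
        bitz rk (i + 1) * dot (ps.length + 2) (co ps s) F.2 := by
    intro i hi
    unfold okK at hK
    rw [List.all_eq_true] at hK
    have h1 := of_decide_eq_true (hK i (List.mem_range.mpr (by omega)))
    have h2 := congrArg (dot (ps.length + 2) (co ps s)) h1
    rw [dot_xorSel, Finset.sum_eq_zero, dot_xor, dot_xor, dot_two_pow _ _ _ hi, dot_ite,
      dot_ite] at h2
    · show _ = (if dk.testBit (i + 1) = true then (1 : ZMod 2) else 0) * _ +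
        (if rk.testBit (i + 1) = true then (1 : ZMod 2) else 0) * _
      generalize (if dk.testBit (i + 1) = true then (1 : ZMod 2) else 0) *
        dot (ps.length + 2) (co ps s) F.1 = u at *
      generalize (if rk.testBit (i + 1) = true then (1 : ZMod 2) else 0) *
        dot (ps.length + 2) (co ps s) F.2 = v at *
      generalize co ps s (i + 1) = w at *
      revert u v w
      decide
    · intro j hj
      have hj' := Finset.mem_range.mp hj
      have hm : gt kk j ∈ kk := by
        unfold gt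
        rw [List.getD_eq_getElem _ _ hj']
        exact List.getElem_mem hj'
      rw [h _ hm, mul_zero]
  have hz : ∀ z : ZMod 2, z = 0 ∨ z = 1 := by decide
  have hp1 : ∀ p ∈ ps, p.Prime := fun p hp => (hps p hp).1
  rcases hz (dot (ps.length + 2) (co ps s) F.1) with h1 | h1 <;>
    rcases hz (dot (ps.length + 2) (co ps s) F.2) with h2 | h2
  · obtain ⟨q, hq⟩ := sign_cases hps hs (supp_one ps) (by
      intro i hi
      rw [hco i hi, h1, h2, co_one hps i hi]
      ring)
    rw [one_mul] at hq
    exact ⟨q, by tauto⟩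
  · obtain ⟨q, hq⟩ := sign_cases hps hs (supp_valM hps rk) (by
      intro i hi
      rw [hco i hi, h1, h2, co_valM hps hnd rk _ hi]
      ring)
    exact ⟨q, by tauto⟩
  · obtain ⟨q, hq⟩ := sign_cases hps hs (supp_valM hps dk) (by
      intro i hi
      rw [hco i hi, h1, h2, co_valM hps hnd dk _ hi]
      ring)
    exact ⟨q, by tauto⟩
  · obtain ⟨q, hq⟩ := sign_cases hps hs (supp_mul (supp_valM hps dk) (supp_valM hps rk)) (by
      intro i hi
      rw [hco i hi, h1, h2, co_mul hp1 (supp_valM hps dk).1 (supp_valM hps rk).1 _ hi,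
        co_valM hps hnd dk _ hi, co_valM hps hnd rk _ hi]
      ring)
    exact ⟨q, by tauto⟩

end Pool.Agent.Helper64.BQ
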